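import Pool.Agent.W957.CH.Stm

/-! Project CH: general rerouting lemma and the case of three ears. -/

namespace Pool.Agent.W428.CH

open Finset Pool.Agent.W957.CH

/-- admissible links of a rerouting -/
def QQ {V : Type} (G : SimpleGraph V) (n : ℕ) (c : ℕ → V) (x y : V) : Prop :=
  G.Adj x y ∧ ∀ i j, i < n → j < n → c i = x → c j = y → cons n i j

theorem cons_symm {n i j : ℕ} (h : cons n i j) : cons n j i := by
  unfold Pool.Agent.W957.CH.cons at *
  omega

theorem QQ_symm {V : Type} {G : SimpleGraph V} {n : ℕ} {c : ℕ → V} {x y : V}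
    (h : QQ G n c x y) : QQ G n c y x :=
  ⟨h.1.symm, fun i j hi hj hx hy => cons_symm (h.2 j i hj hi hy hx)⟩

/-- block of a rerouting with first vertex `x` and last vertex `y` -/
structure Blk {V : Type} (G : SimpleGraph V) (n : ℕ) (c : ℕ → V) (x y : V) (l : List V) :
    Prop where
  ch : l.IsChain (QQ G n c)
  hd : l.head? = some x
  lt : l.getLast? = some y

theorem Blk.append {V : Type} {G : SimpleGraph V} {n : ℕ} {c : ℕ → V} {x y z w : V}
    {l l' : List V} (h : Blk G n c x y l) (h' : Blk G n c z w l') (hq : QQ G n c y z) :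
    Blk G n c x w (l ++ l') := by
  refine ⟨?_, ?_, ?_⟩
  · rw [List.isChain_append]
    refine ⟨h.ch, h'.ch, ?_⟩
    intro a ha b hb
    rw [h.lt] at ha
    rw [h'.hd] at hb
    simp only [Option.mem_def, Option.some.injEq] at ha hb
    rw [← ha, ← hb]
    exact hq
  · rw [List.head?_append, h.hd]
    rfl
  · rw [List.getLast?_append, h'.lt]
    rfl

theorem Blk.reverse {V : Type} {G : SimpleGraph V} {n : ℕ} {c : ℕ → V} {x y : V}
    {l : List V} (h : Blk G n c x y l) : Blk G n c y x l.reverse := by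
  refine ⟨?_, ?_, ?_⟩
  · rw [List.isChain_reverse]
    exact h.ch.imp (fun a b hab => QQ_symm hab)
  · rw [List.head?_reverse]
    exact h.lt
  · rw [List.getLast?_reverse]
    exact h.hd

theorem sg_length {V : Type} (c : ℕ → V) (a b : ℕ) : (sg c a b).length = b + 1 - a := by
  simp [sg]

theorem blk_sg {V : Type} {G : SimpleGraph V} {n : ℕ} {c : ℕ → V} (hc : CR G n c) {a b : ℕ}
    (hab : a ≤ b) (hb : b < n) : Blk G n c (c a) (c b) (sg c a b) := by
  refine ⟨?_, ?_, ?_⟩
  · rw [List.isChain_iff_getElem]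
    intro i hi
    rw [sg_length] at hi
    simp only [sg, List.getElem_map, List.getElem_range', one_mul]
    refine ⟨hc.adj (a + i) (by omega), ?_⟩
    intro p q hp hq h1 h2
    have e1 := hc.inj _ _ hp (by omega) h1
    have e2 := hc.inj _ _ hq (by omega) h2
    unfold Pool.Agent.W957.CH.cons
    omega
  · have h1 : b + 1 - a = (b - a) + 1 := by omega
    unfold sg
    rw [h1, List.range'_succ, List.map_cons]
    rfl
  · have h1 : b + 1 - a = (b - a) + 1 := by omega
    unfold sg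
    rw [h1, List.range'_concat, List.map_append, List.getLast?_append]
    simp only [List.map_cons, List.map_nil, List.getLast?_singleton, one_mul]
    have h2 : a + (b - a) = b := by omega
    rw [h2]
    rfl

theorem blk_ear {V : Type} [DecidableEq V] {G : SimpleGraph V} {n : ℕ} {c : ℕ → V} {u v : V}
    {R : List V} (h : PF G u v R) (hR : ∀ x ∈ R, x ∉ img n c) : Blk G n c u v R := by
  refine ⟨?_, h.2.1, h.2.2⟩
  have h1 := h.1.2
  rw [List.isChain_iff_getElem] at h1 ⊢
  intro i hi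
  refine ⟨h1 i hi, ?_⟩
  intro p q hp _ h2 _
  exfalso
  refine hR _ (List.getElem_mem (l := R) (n := i) (by omega)) ?_
  unfold img
  rw [mem_image]
  exact ⟨p, mem_range.2 hp, h2⟩

theorem qq_left {V : Type} [DecidableEq V] {G : SimpleGraph V} {n : ℕ} {c : ℕ → V} {x y : V}
    (h : G.Adj x y) (hy : y ∉ img n c) : QQ G n c x y := by
  refine ⟨h, ?_⟩
  intro p q _ hq _ h2
  exfalso
  apply hy
  unfold img
  rw [mem_image]
  exact ⟨q, mem_range.2 hq, h2⟩

theorem mem_of_head {V : Type} {l : List V} {x : V} (h : l.head? = some x) : x ∈ l :=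
  List.mem_of_mem_head? (by rw [h]; rfl)

theorem mem_of_last {V : Type} {l : List V} {x : V} (h : l.getLast? = some x) : x ∈ l :=
  List.mem_of_mem_getLast? (by rw [h]; rfl)

/-- consequences of the definition of an ear -/
theorem ear_blk {V : Type} [DecidableEq V] {X : Cx V} {n : ℕ} {c : ℕ → V} {a b : ℕ}
    {R : List V} (h : Ear X n c a b R) :
    ∃ u v, Blk X.G n c u v R ∧ QQ X.G n c (c a) u ∧ QQ X.G n c v (c b) := by
  obtain ⟨⟨u, v, h1, h2, h3⟩, h4⟩ := h
  refine ⟨u, v, blk_ear h1 (fun x hx => (h4 x hx).2), qq_left h2 (h4 u (mem_of_head h1.2.1)).2, ?_⟩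
  exact QQ_symm (qq_left h3.symm (h4 v (mem_of_last h1.2.2)).2)

theorem mem_img {V : Type} [DecidableEq V] {n : ℕ} {c : ℕ → V} {i : ℕ} (h : i < n) :
    c i ∈ img n c := by
  unfold img
  rw [mem_image]
  exact ⟨i, mem_range.2 h, rfl⟩

/-- general rerouting lemma: `I` is the list of the positions which are kept, `E` the list of the
new vertices -/
theorem rer_of {V : Type} [DecidableEq V] (X : Cx V) (n : ℕ) (c : ℕ → V) (hg : CR X.G n c)
    (l E : List V) (I : List ℕ) (Rm : Finset ℕ) (hp : l.Perm (I.map c ++ E)) (hI : I.Nodup)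
    (hI2 : ∀ i, i ∈ I ↔ i < n ∧ i ∉ Rm) (hE : E.Nodup)
    (hEA : ∀ x ∈ E, x ∈ X.A ∧ x ∉ img n c) (hfr : ∀ i ∈ Rm, i < n ∧ ¬ chE X.G n c i)
    (h3 : 3 ≤ I.length) (hb : Blk X.G n c (c 0) (c (n - 1)) l) : Rer X n c l Rm E := by
  have h3n := hg.three
  have hmem : ∀ x, x ∈ l ↔ (∃ i, i < n ∧ i ∉ Rm ∧ c i = x) ∨ x ∈ E := by
    intro x
    rw [hp.mem_iff, List.mem_append, List.mem_map]
    constructor
    · rintro (⟨i, hi, rfl⟩ | hx)
      · left
        have := (hI2 i).1 hi
        exact ⟨i, this.1, this.2, rfl⟩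
      · exact Or.inr hx
    · rintro (⟨i, hi, hi2, rfl⟩ | hx)
      · left
        exact ⟨i, (hI2 i).2 ⟨hi, hi2⟩, rfl⟩
      · exact Or.inr hx
  have hnd : l.Nodup := by
    rw [hp.nodup_iff, List.nodup_append]
    refine ⟨?_, hE, ?_⟩
    · refine hI.map_on ?_
      intro x hx y hy hxy
      exact hg.inj x y ((hI2 x).1 hx).1 ((hI2 y).1 hy).1 hxy
    · intro x hx y hy hxy
      rw [List.mem_map] at hx
      obtain ⟨i, hi, rfl⟩ := hx
      apply (hEA y hy).2
      rw [← hxy]
      exact mem_img ((hI2 i).1 hi).1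
  have hadj : X.G.Adj (c (n - 1)) (c 0) := hg.clo
  refine ⟨⟨?_, ⟨hnd, hb.ch.imp (fun a b hab => hab.1)⟩, ?_⟩, hmem, hEA, hfr, ?_⟩
  · rw [hp.length_eq, List.length_append, List.length_map]
    omega
  · intro a b ha hb'
    rw [hb.hd] at ha
    rw [hb.lt] at hb'
    simp only [Option.some.injEq] at ha hb'
    rw [← ha, ← hb']
    exact hadj
  · have key : ∀ i j, i < n → j < n → Nx l (c i) (c j) → cons n i j := by
      intro i j hi hj h
      rcases h with ⟨l1, l2, h⟩ | ⟨h1, h2⟩
      · have hch := hb.ch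
        rw [h, List.isChain_append_cons_cons] at hch
        exact hch.2.1.2 i j hi hj rfl rfl
      · rw [hb.lt] at h1
        rw [hb.hd] at h2
        simp only [Option.some.injEq] at h1 h2
        have e1 := hg.inj _ _ (by omega) hi h1
        have e2 := hg.inj _ _ (by omega) hj h2
        unfold Pool.Agent.W957.CH.cons
        omega
    intro i j hi hj h
    rcases h with h | h
    · exact key i j hi hj h
    · exact cons_symm (key j i hj hi h)

theorem t_PR3 : S_PR3 := by
  intro V _ X n c a l1 l2 b w1 w2 e1 e2 K L1 L2 hg h1 h2 h3 h4 h5 h6 hf1 hf2 hf3 hK hL1 hL2 he hnd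
  have hcr := hg.cr
  obtain ⟨ku, kv, kb, kq1, kq2⟩ := ear_blk hK
  obtain ⟨pu, pv, pb, pq1, pq2⟩ := ear_blk hL1
  obtain ⟨su, sv, sb, sq1, sq2⟩ := ear_blk hL2
  have b1 : Blk X.G n c (c 0) (c a) (sg c 0 a) := blk_sg hcr (by omega) (by omega)
  have b2 : Blk X.G n c (c b) (c w1) (sg c b w1) := blk_sg hcr (by omega) (by omega)
  have b3 : Blk X.G n c (c l1) (c l2) (sg c l1 l2) := blk_sg hcr (by omega) (by omega)
  have b4 : Blk X.G n c (c w2) (c (n - 1)) (sg c w2 (n - 1)) := blk_sg hcr (by omega) (by omega)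
  have hEA : ∀ x ∈ K ++ L1 ++ L2, x ∈ X.A ∧ x ∉ img n c := by
    intro x hx
    simp only [List.mem_append] at hx
    rcases hx with (hx | hx) | hx
    · exact hK.2 x hx
    · exact hL1.2 x hx
    · exact hL2.2 x hx
  have hfr : ∀ i ∈ Ioo a l1 ∪ Ioo l2 b ∪ Ioo w1 w2, i < n ∧ ¬ chE X.G n c i := by
    intro i hi
    simp only [mem_union, mem_Ioo] at hi
    rcases hi with (hi | hi) | hi
    · exact ⟨by omega, hf1 i hi.1.le hi.2.le⟩
    · exact ⟨by omega, hf2 i hi.1.le hi.2.le⟩
    · exact ⟨by omega, hf3 i hi.1.le hi.2.le⟩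
  set I : List ℕ := List.range' 0 (a + 1 - 0) ++ List.range' l1 (l2 + 1 - l1) ++
    List.range' b (w1 + 1 - b) ++ List.range' w2 (n - 1 + 1 - w2) with hIdef
  have hI : I.Nodup := by
    have hr : ∀ s m : ℕ, (List.range' s m).Nodup := fun s m => List.nodup_range'
    simp only [hIdef, List.nodup_append, List.mem_append, List.mem_range'_1]
    refine ⟨⟨⟨hr _ _, hr _ _, ?_⟩, hr _ _, ?_⟩, hr _ _, ?_⟩
    all_goals
      intro x hx y hy
      omega
  have hI2 : ∀ i, i ∈ I ↔ i < n ∧ i ∉ Ioo a l1 ∪ Ioo l2 b ∪ Ioo w1 w2 := by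
    intro i
    simp only [hIdef, List.mem_append, List.mem_range'_1, mem_union, mem_Ioo]
    omega
  have hI3 : 3 ≤ I.length := by
    simp only [hIdef, List.length_append, List.length_range']
    omega
  have hIm : I.map c = sg c 0 a ++ sg c l1 l2 ++ sg c b w1 ++ sg c w2 (n - 1) := by
    simp only [hIdef, List.map_append, sg]
  rcases he with ⟨rfl, rfl⟩ | ⟨rfl, rfl⟩
  · refine ⟨sg c 0 a ++ K ++ sg c b e1 ++ L1.reverse ++ sg c l1 l2 ++ L2 ++ sg c e2 (n - 1), ?_⟩
    refine rer_of X n c hcr _ _ I _ ?_ hI hI2 hnd hEA hfr hI3 ?_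
    · rw [hIm, ← Multiset.coe_eq_coe]
      simp only [← Multiset.coe_add, Multiset.coe_reverse]
      abel
    · exact ((((((b1.append kb kq1).append b2 kq2).append pb.reverse (QQ_symm pq2)).append b3
        (QQ_symm pq1)).append sb sq1).append b4 sq2)
  · refine ⟨sg c 0 a ++ K ++ sg c b e2 ++ L2.reverse ++ (sg c l1 l2).reverse ++ L1 ++
      sg c e1 (n - 1), ?_⟩
    refine rer_of X n c hcr _ _ I _ ?_ hI hI2 hnd hEA hfr hI3 ?_
    · rw [hIm, ← Multiset.coe_eq_coe]
      simp only [← Multiset.coe_add, Multiset.coe_reverse]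
      abel
    · exact ((((((b1.append kb kq1).append b2 kq2).append sb.reverse (QQ_symm sq2)).append
        b3.reverse (QQ_symm sq1)).append pb pq1).append b4 pq2)

end Pool.Agent.W428.CH
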